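import Pool.Agent.Y87.NE.MatZ

/-!
Every minimal non-Engel variety of associative (not necessarily unital) rings is a Cross variety.

The definitions are in `Pool.Agent.H854R3.NE.Basic`: a variety is given by a set `E` of identities
between expressions in the signature `(+, -, 0, *)`.
-/

set_option autoImplicit false

namespace Pool.Agent.Results.MP_a5aec7_al.MinimalNonEngelCross

open Pool.Agent.H854R3.NE

/-- A variety of associative rings that is not Engel while all its proper subvarieties are Engel
is finitely based, locally finite and contains only finitely many critical rings. -/
theorem result (E : Set (RTerm × RTerm)) (h : MinimalNonEngel E) : IsCross E :=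
  Pool.Agent.Y87.NE.minimal_nonEngel_cross h

end Pool.Agent.Results.MP_a5aec7_al.MinimalNonEngelCross
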